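import Pool.Agent.H57.CN.Targets

/-!
Names of the classes of a chain of equivalence relations (MP_6ab439_lc): row LCA, local completions
for names, the map of the flags.
-/

set_option autoImplicit false
set_option linter.unusedVariables false

namespace Pool.Agent.H7.CN

open Pool.Agent.H68.BP Pool.Agent.H58.SF Pool.Agent.H53.NR
open Pool.Agent.H53.GC (strOn sigOf)
open Pool.Agent.H57.AR (tp ty Ty)
open Pool.Agent.H57.LH (Hmg tp_iff)
open Pool.Agent.H44.KR (HB Amg Tyi TpOn LcN)
open Pool.Agent.H72.CH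
open Pool.Agent.H57.CN
open Function

/-! ### The number of the common entries -/

section common

variable {α β : Type} {m : ℕ}

private theorem agl_eq_of {w w' : Fin m → α} {n : ℕ} (hn : n ≤ m)
    (h : ∀ j ≤ m, Agr j w w' ↔ j ≤ n) : agl w w' = n :=
  le_antisymm ((h _ (agl_le w w')).1 (agr_agl w w')) ((le_agl hn).2 ((h n hn).2 le_rfl))

private theorem agl_map {w w' : Fin m → α} {v v' : Fin m → β}
    (h : ∀ j ≤ m, Agr j w w' ↔ Agr j v v') : agl w w' = agl v v' :=
  agl_eq_of (agl_le v v') fun j hj => (h j hj).trans (le_agl hj).symm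

end common

/-! ### Points -/

section points

variable {W Λ : Type} {m : ℕ} (R : ℕ) (s : W → Fin m) (D : Λ → Set W)

/-- the labels -/
private abbrev Lab : Type := {l : Λ × (Fin R → Fin m) × (Fin R × Fin m → W) //
  (∀ q, l.2.2 q ∈ D l.1) ∧ ∀ b i, i ≤ l.2.1 b → s (l.2.2 (b, i)) = i}

/-- the points: flags with dummy names, and private points -/
private abbrev XX : Type := (Fin m → W ⊕ Fin m) ⊕ (Lab R s D × Fin R)

variable {R s D}

open Classical in
/-- the length of the common part -/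
private noncomputable def tt (l : Lab R s D) (b : Fin R) : ℕ :=
  if (l.1.2.1 b : ℕ) + 1 < m then (l.1.2.1 b : ℕ) + 1 else 0

open Classical in
/-- the flag of a point -/
private noncomputable def Phi : XX R s D → Fin m → (W ⊕ Fin m) ⊕ (Lab R s D × Fin R)
  | Sum.inl w => fun i => Sum.inl (w i)
  | Sum.inr p => fun i => if (i : ℕ) < tt p.1 p.2 then Sum.inl (Sum.inl (p.1.1.2.2 (p.2, i)))
      else Sum.inr p

open Classical in
/-- the tuple of a label -/
private noncomputable def ZZ (l : Lab R s D) (b : Fin R) : XX R s D :=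
  if (l.1.2.1 b : ℕ) + 1 < m then Sum.inr (l, b)
  else Sum.inl (fun i => Sum.inl (l.1.2.2 (b, i)))

private theorem tt_lt (hm : 1 ≤ m) (l : Lab R s D) (b : Fin R) : tt l b < m := by
  unfold tt
  split_ifs with h
  · exact h
  · exact hm

private theorem Phi_inj (hm : 1 ≤ m) : Injective (Phi : XX R s D → _) := by
  intro x x' h
  obtain ⟨k, hk⟩ : ∃ k : Fin m, (k : ℕ) = m - 1 := ⟨⟨m - 1, by omega⟩, rfl⟩
  have hk' : ∀ (l : Lab R s D) (b : Fin R), ¬ (k : ℕ) < tt l b := by
    intro l b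
    have := tt_lt hm l b
    omega
  rcases x with w | p <;> rcases x' with w' | p'
  · congr 1
    funext i
    have := congrFun h i
    exact Sum.inl_injective this
  · have := congrFun h k
    simp only [Phi] at this
    rw [if_neg (hk' _ _)] at this
    cases this
  · have := congrFun h k
    simp only [Phi] at this
    rw [if_neg (hk' _ _)] at this
    cases this
  · have := congrFun h k
    simp only [Phi] at this
    rw [if_neg (hk' _ _), if_neg (hk' _ _)] at this
    exact congrArg Sum.inr (Sum.inr_injective this)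

private theorem Phi_ZZ_le (l : Lab R s D) (b : Fin R) (i : Fin m) (hi : i ≤ l.1.2.1 b) :
    Phi (ZZ l b) i = Sum.inl (Sum.inl (l.1.2.2 (b, i))) := by
  have hi' : (i : ℕ) ≤ l.1.2.1 b := hi
  unfold ZZ
  split_ifs with h
  · simp only [Phi]
    rw [if_pos]
    unfold tt
    rw [if_pos h]
    omega
  · rfl

private theorem Phi_ZZ_gt (l : Lab R s D) (b : Fin R) (i : Fin m) (hi : ¬ i ≤ l.1.2.1 b) :
    Phi (ZZ l b) i = Sum.inr (l, b) := by
  have hi' : ¬ (i : ℕ) ≤ l.1.2.1 b := hi
  have him := i.2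
  have h : (l.1.2.1 b : ℕ) + 1 < m := by omega
  unfold ZZ
  rw [if_pos h]
  simp only [Phi]
  rw [if_neg]
  unfold tt
  rw [if_pos h]
  omega

private theorem le_succ_of {j : ℕ} (hj : j ≤ m) (h : Fin m) (hi : ∀ i : Fin m, (i : ℕ) < j → i ≤ h) :
    j ≤ (h : ℕ) + 1 := by
  by_contra hcon
  have h1 : (h : ℕ) + 1 < m := by omega
  have h2 := hi ⟨(h : ℕ) + 1, h1⟩ (by simp only; omega)
  have h3 : (h : ℕ) + 1 ≤ h := h2
  omega

private theorem lam_ZZ (l : Lab R s D) (b b' : Fin R) (hne : b ≠ b') :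
    agl (Phi (ZZ l b)) (Phi (ZZ l b')) = min (agl (fun i => l.1.2.2 (b, i))
      (fun i => l.1.2.2 (b', i))) (min ((l.1.2.1 b : ℕ) + 1) ((l.1.2.1 b' : ℕ) + 1)) := by
  refine agl_eq_of (le_trans (min_le_left _ _) (agl_le _ _)) fun j hj => ?_
  rw [le_min_iff, le_min_iff, le_agl hj]
  constructor
  · intro h
    have h1 : ∀ i : Fin m, (i : ℕ) < j → i ≤ l.1.2.1 b := by
      intro i hi
      by_contra hcon
      have h2 := h i hi
      rw [Phi_ZZ_gt l b i hcon] at h2
      by_cases h3 : i ≤ l.1.2.1 b'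
      · rw [Phi_ZZ_le l b' i h3] at h2
        cases h2
      · rw [Phi_ZZ_gt l b' i h3] at h2
        exact hne (Prod.ext_iff.1 (Sum.inr_injective h2)).2
    have h1' : ∀ i : Fin m, (i : ℕ) < j → i ≤ l.1.2.1 b' := by
      intro i hi
      by_contra hcon
      have h2 := h i hi
      rw [Phi_ZZ_gt l b' i hcon, Phi_ZZ_le l b i (h1 i hi)] at h2
      cases h2
    refine ⟨fun i hi => ?_, le_succ_of hj _ h1, le_succ_of hj _ h1'⟩
    have h2 := h i hi
    rw [Phi_ZZ_le l b i (h1 i hi), Phi_ZZ_le l b' i (h1' i hi)] at h2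
    exact Sum.inl_injective (Sum.inl_injective h2)
  · rintro ⟨h1, h2, h3⟩ i hi
    have e1 : i ≤ l.1.2.1 b := by
      have : (i : ℕ) ≤ l.1.2.1 b := by omega
      exact this
    have e2 : i ≤ l.1.2.1 b' := by
      have : (i : ℕ) ≤ l.1.2.1 b' := by omega
      exact this
    rw [Phi_ZZ_le l b i e1, Phi_ZZ_le l b' i e2]
    exact congrArg _ (congrArg _ (h1 i hi))

/-- the flag with dummy names instead of private names -/
private noncomputable def ww (x : XX R s D) (i : Fin m) : W ⊕ Fin m :=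
  Sum.elim id (fun _ => Sum.inr i) (Phi x i)

private theorem ww_agr {x x' : XX R s D} {j : ℕ} (h : Agr j (Phi x) (Phi x')) :
    Agr j (ww x) (ww x') := fun i hi => by
  unfold ww
  rw [h i hi]

private theorem ww_inl (w : Fin m → W ⊕ Fin m) : ww (Sum.inl w : XX R s D) = w := rfl

private theorem ww_lt (l : Lab R s D) (b : Fin R) (i : Fin m) (h : (i : ℕ) < tt l b) :
    ww (Sum.inr (l, b) : XX R s D) i = Sum.inl (l.1.2.2 (b, i)) := by
  unfold ww
  simp only [Phi]
  rw [if_pos h]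
  rfl

private theorem ww_ge (l : Lab R s D) (b : Fin R) (i : Fin m) (h : ¬ (i : ℕ) < tt l b) :
    ww (Sum.inr (l, b) : XX R s D) i = Sum.inr i := by
  unfold ww
  simp only [Phi]
  rw [if_neg h]
  rfl

/-- different points: the common part is short -/
private theorem agr_short (l : Lab R s D) (b : Fin R) (x : XX R s D) (hx : Sum.inr (l, b) ≠ x)
    {j : ℕ} (hj : j ≤ m) (h : Agr j (Phi (Sum.inr (l, b))) (Phi x)) : j ≤ tt l b := by
  by_contra hcon
  have h1 : tt l b < m := by omega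
  have h2 := h ⟨tt l b, h1⟩ (by simp only; omega)
  rcases x with w | p
  · simp only [Phi] at h2
    rw [if_neg (lt_irrefl _)] at h2
    cases h2
  · simp only [Phi] at h2
    rw [if_neg (lt_irrefl _)] at h2
    split_ifs at h2 with h3
    · exact hx (congrArg Sum.inr (Sum.inr_injective h2))

end points

/-! ### Truncated flags -/

section trunc

variable {W : Type} {m : ℕ} (s : W → Fin m) (f : W → ℕ) (c : Fin m → ℕ)

/-- the first entries are names of the right sorts -/
private def gd (w : Fin m → W ⊕ Fin m) (i : Fin m) : Prop :=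
  ∀ j ≤ i, ∃ x, w j = Sum.inl x ∧ s x = j

open Classical in
/-- truncated flags -/
private noncomputable def tr (w : Fin m → W ⊕ Fin m) (i : Fin m) : ℕ :=
  if gd s w i then Sum.elim f c (w i) else c i

variable {s f c}

private theorem tr_flag {st : ℕ → Fin m} {w : Fin m → W ⊕ Fin m}
    (h : ∀ i x, w i = Sum.inl x → st (f x) = s x) (hc : ∀ i, st (c i) = i) :
    IsFl st (tr s f c w) := by
  intro i
  unfold tr
  split_ifs with hg
  · obtain ⟨x, hx, hs⟩ := hg i le_rfl
    rw [hx]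
    exact (h i x hx).trans hs
  · exact hc i

private theorem tr_agr {w w' : Fin m → W ⊕ Fin m} {j : ℕ} (h : Agr j w w') :
    Agr j (tr s f c w) (tr s f c w') := by
  intro i hi
  have e : gd s w i ↔ gd s w' i := by
    unfold gd
    refine forall_congr' fun k => ?_
    refine forall_congr' fun hk => ?_
    have hk' : (k : ℕ) ≤ i := hk
    rw [h k (by omega)]
  unfold tr
  by_cases hg : gd s w i
  · rw [if_pos hg, if_pos (e.1 hg), h i hi]
  · rw [if_neg hg, if_neg (fun hg' => hg (e.2 hg'))]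

private theorem tr_bk {w : Fin m → W ⊕ Fin m} {z : Fin m → W} {h : Fin m}
    (h1 : ∀ i, i ≤ h → w i = Sum.inl (z i)) (h2 : ∀ i, ¬ i ≤ h → ∀ x, w i ≠ Sum.inl x)
    (h3 : ∀ i, i ≤ h → s (z i) = i) :
    tr s f c w = fun i => if i ≤ h then f (z i) else c i := by
  funext i
  unfold tr
  by_cases hi : i ≤ h
  · have hg : gd s w i := fun j hj => ⟨z j, h1 j (hj.trans hi), h3 j (hj.trans hi)⟩
    rw [if_pos hg, if_pos hi, h1 i hi]
    rfl
  · have hg : ¬ gd s w i := fun hg => by
      obtain ⟨x, hx, -⟩ := hg i le_rfl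
      exact h2 i hi x hx
    rw [if_neg hg, if_neg hi]

end trunc

/-! ### Classes -/

private theorem cls {V : Type} {ρ : Sig} {𝔹 : Str ρ V} {m : ℕ} {lv : V → V → ℕ}
    (hV : HV 𝔹 m lv) {R : ℕ} (k : Fin R → ℕ) (κ y0 y : Fin R → V) (τ : Ty ρ (Fin R))
    (h0 : ∀ b, k b ≤ lv (y0 b) (κ b)) (hy : tp 𝔹 y0 = tp 𝔹 y) :
    (∃ x : Fin R → V, (∀ b, k b ≤ lv (x b) (κ b)) ∧ tp 𝔹 x = τ) ↔
      ∃ x : Fin R → V, (∀ b, k b ≤ lv (x b) (y b)) ∧ tp 𝔹 x = τ := by
  constructor
  · rintro ⟨x, hx, ht⟩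
    obtain ⟨x', h1, h2⟩ := clt hV k y0 y x hy (fun b => by
      refine le_trans (le_min (hx b) ?_) (hV.lev.pl.ult (x b) (κ b) (y0 b))
      rw [hV.lev.pl.sym]
      exact h0 b)
    exact ⟨x', h1, h2.trans ht⟩
  · rintro ⟨x, hx, ht⟩
    obtain ⟨x', h1, h2⟩ := clt hV k y y0 x hy.symm hx
    exact ⟨x', fun b => le_trans (le_min (h1 b) (h0 b)) (hV.lev.pl.ult _ _ _), h2.trans ht⟩

/-! ### The theorem -/

open Classical in
/-- the names of a point at a place -/
private noncomputable def ent {W Λ : Type} {m R : ℕ} {s : W → Fin m} {D : Λ → Set W} :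
    XX R s D → Fin m → Finset W
  | Sum.inl w => fun i => Sum.elim (fun x => {x}) (fun _ => ∅) (w i)
  | Sum.inr p => fun i => {p.1.1.2.2 (p.2, i)}

private theorem ent_card {W Λ : Type} {m R : ℕ} {s : W → Fin m} {D : Λ → Set W}
    (x : XX R s D) (i : Fin m) : (ent x i).card ≤ 1 := by
  rcases x with w | p
  · simp only [ent]
    rcases w i with y | y <;> simp
  · simp [ent]

private theorem ent_ww {W Λ : Type} {m R : ℕ} {s : W → Fin m} {D : Λ → Set W}
    (x : XX R s D) (i : Fin m) (y : W) (h : ww x i = Sum.inl y) : y ∈ ent x i := by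
  rcases x with w | ⟨l, b⟩
  · rw [ww_inl] at h
    simp only [ent]
    rw [h]
    simp
  · by_cases h1 : (i : ℕ) < tt l b
    · rw [ww_lt l b i h1] at h
      simp only [ent]
      rw [← Sum.inl_injective h]
      simp
    · rw [ww_ge l b i h1] at h
      cases h

private theorem ent_ZZ {W Λ : Type} {m R : ℕ} {s : W → Fin m} {D : Λ → Set W}
    (l : Lab R s D) (b : Fin R) (i : Fin m) : l.1.2.2 (b, i) ∈ ent (ZZ l b) i := by
  unfold ZZ
  split_ifs with h
  · simp [ent]
  · simp [ent]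

theorem pf_LCA (hRLX : T_RLX) : T_LCA := by
  classical
  intro V ρ 𝔹 m lv hV hm R hR 𝔻 st β c hN hEXR
  obtain ⟨M, hM⟩ := hRLX V ρ 𝔹 m lv hV R
  have pl := hV.lev.pl
  refine ⟨M * m + R * m + 1, ?_⟩
  intro W Λ _ _ s D S hloc
  have : Nonempty V := hV.ne
  -- the entries of a tuple
  have hent : ∀ z : Fin R × Fin m → W, ∃ U : Finset W, U.card ≤ M * m + R * m + 1 ∧
      ∀ q, z q ∈ U := by
    intro z
    refine ⟨Finset.univ.image z, ?_, fun q => Finset.mem_image_of_mem _ (Finset.mem_univ _)⟩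
    refine Finset.card_image_le.trans ?_
    rw [Finset.card_univ, Fintype.card_prod, Fintype.card_fin, Fintype.card_fin]
    omega
  -- the tuples `y`
  have hy : ∀ l : Lab R s D, ∃ y : Fin R → V,
      (∀ b b', lv (y b) (y b') = agl (Phi (ZZ l b)) (Phi (ZZ l b'))) ∧
      S l.1.1 (Sum.inr (l.1.2.1, tp 𝔹 y)) l.1.2.2 := by
    intro l
    obtain ⟨U, hU, hzU⟩ := hent l.1.2.2
    obtain ⟨f, hf1, hf2⟩ := hloc U hU
    obtain ⟨hinj, hf3⟩ := hf2 l.1.1
    have hsrt : ∀ a i, i ≤ l.1.2.1 a → st (f (l.1.2.2 (a, i))) = i := fun a i hi =>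
      (hf1 _ (hzU _)).trans (l.2.2 a i hi)
    obtain ⟨x, hx1, hx2⟩ := hEXR (fun q => f (l.1.2.2 q)) l.1.2.1 hsrt
    refine ⟨x, fun b b' => ?_, ?_⟩
    · by_cases hb : b = b'
      · rw [hb, pl.self, (plev_agl (m := m)).self]
      · rw [hx2 b b' hb, lam_ZZ l b b' hb]
        congr 1
        refine agl_map fun j hj => ?_
        refine forall_congr' fun i => forall_congr' fun hi => ?_
        constructor
        · intro h
          exact hinj ⟨l.2.1 _, hzU _⟩ ⟨l.2.1 _, hzU _⟩ h
        · intro h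
          exact congrArg f h
    · have h1 := hf3 (Sum.inr (l.1.2.1, tp 𝔹 x)) l.1.2.2 (fun q => ⟨l.2.1 q, hzU q⟩)
      exact h1.1 ⟨hsrt, x, hx1, rfl⟩
  choose y hy1 hy2 using hy
  -- local maps
  have hlocal : ∀ U : Finset (XX R s D), U.card ≤ M → ∃ F : XX R s D → V,
      (∀ x ∈ U, ∀ x' ∈ U, agl (Phi x) (Phi x') ≤ lv (F x) (F x')) ∧
      ∀ l : Lab R s D, (∀ b, ZZ l b ∈ U) → tp 𝔹 (fun b => F (ZZ l b)) = tp 𝔹 (y l) := by
    intro U hU
    obtain ⟨UW, hUW⟩ : ∃ UW : Finset W, UW = (U ×ˢ (Finset.univ : Finset (Fin m))).biUnion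
      fun p => ent p.1 p.2 := ⟨_, rfl⟩
    have hUWc : UW.card ≤ M * m + R * m + 1 := by
      have h1 : UW.card ≤ (U ×ˢ (Finset.univ : Finset (Fin m))).card * 1 := by
        rw [hUW]
        exact Finset.card_biUnion_le_card_mul _ _ 1 fun p _ => ent_card p.1 p.2
      rw [mul_one, Finset.card_product, Finset.card_univ, Fintype.card_fin] at h1
      have h2 : U.card * m ≤ M * m := Nat.mul_le_mul_right m hU
      omega
    have hmem : ∀ x ∈ U, ∀ i, ∀ v ∈ ent x i, v ∈ UW := by
      intro x hx i v hv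
      rw [hUW]
      exact Finset.mem_biUnion.2 ⟨(x, i), Finset.mem_product.2 ⟨hx, Finset.mem_univ _⟩, hv⟩
    obtain ⟨f, hf1, hf2⟩ := hloc UW hUWc
    have hx : ∀ l : Lab R s D, ∃ x : Fin R → V, (∀ b, ZZ l b ∈ U) →
        (∀ b, (l.1.2.1 b : ℕ) + 1 ≤ lv (x b) (bk β c (fun i => f (l.1.2.2 (b, i))) (l.1.2.1 b))) ∧
        tp 𝔹 x = tp 𝔹 (y l) := by
      intro l
      by_cases hl : ∀ b, ZZ l b ∈ U
      · have h1 := ((hf2 l.1.1).2 (Sum.inr (l.1.2.1, tp 𝔹 (y l))) l.1.2.2
          (fun q => ⟨l.2.1 q, hmem _ (hl q.1) q.2 _ (ent_ZZ l q.1 q.2)⟩)).2 (hy2 l)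
        obtain ⟨-, x, hx1, hx2⟩ := h1
        exact ⟨x, fun _ => ⟨hx1, hx2⟩⟩
      · exact ⟨y l, fun h => absurd h hl⟩
    choose x hx using hx
    obtain ⟨B, hB⟩ : ∃ B : XX R s D → V, ∀ p, B p = β (tr s f c (ww p)) :=
      ⟨fun p => β (tr s f c (ww p)), fun p => rfl⟩
    obtain ⟨F, hF1, hF2, hF3⟩ : ∃ F : XX R s D → V, (∀ w, F (Sum.inl w) = B (Sum.inl w)) ∧
        (∀ l b, (∀ b', ZZ l b' ∈ U) → F (Sum.inr (l, b)) = x l b) ∧
        ∀ l b, ¬ (∀ b', ZZ l b' ∈ U) → F (Sum.inr (l, b)) = B (Sum.inr (l, b)) := by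
      refine ⟨fun p => Sum.elim (fun w => B (Sum.inl w)) (fun q => if ∀ b', ZZ q.1 b' ∈ U then
        x q.1 q.2 else B (Sum.inr q)) p, fun w => rfl, fun l b h => ?_, fun l b h => ?_⟩
      · exact if_pos h
      · exact if_neg h
    -- the first entries of a label
    have hbk : ∀ (l : Lab R s D) (b : Fin R) (w : Fin m → W ⊕ Fin m),
        (∀ i, i ≤ l.1.2.1 b → w i = Sum.inl (l.1.2.2 (b, i))) →
        (∀ i, ¬ i ≤ l.1.2.1 b → ∀ v, w i ≠ Sum.inl v) →
        β (tr s f c w) = bk β c (fun i => f (l.1.2.2 (b, i))) (l.1.2.1 b) := by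
      intro l b w h1 h2
      rw [tr_bk h1 h2 (fun i hi => l.2.2 b i hi)]
      rfl
    have hact : ∀ l b, (∀ b', ZZ l b' ∈ U) → tt l b ≤ lv (x l b) (B (Sum.inr (l, b))) := by
      intro l b hl
      by_cases h1 : (l.1.2.1 b : ℕ) + 1 < m
      · have h2 : tt l b = (l.1.2.1 b : ℕ) + 1 := if_pos h1
        rw [h2, hB, hbk l b]
        · exact (hx l hl).1 b
        · intro i hi
          refine ww_lt l b i ?_
          have : (i : ℕ) ≤ l.1.2.1 b := hi
          omega
        · intro i hi v hv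
          rw [ww_ge l b i (by
            have : ¬ (i : ℕ) ≤ l.1.2.1 b := hi
            omega)] at hv
          cases hv
      · have h2 : tt l b = 0 := if_neg h1
        rw [h2]
        exact Nat.zero_le _
    have hFB : ∀ p p' : XX R s D, p ≠ p' → ∀ j ≤ m, Agr j (Phi p) (Phi p') →
        j ≤ lv (F p) (B p) := by
      intro p p' hpp j hj hagr
      rcases p with w | ⟨l, b⟩
      · rw [hF1, pl.self]
        exact hj
      · by_cases hl : ∀ b', ZZ l b' ∈ U
        · rw [hF2 l b hl]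
          exact (agr_short l b p' hpp hj hagr).trans (hact l b hl)
        · rw [hF3 l b hl, pl.self]
          exact hj
    have hfl : ∀ p ∈ U, IsFl st (tr s f c (ww p)) := by
      intro p hp
      refine tr_flag (fun i v hv => hf1 v (hmem p hp i v (ent_ww p i v hv))) hN.cst
    refine ⟨F, ?_, ?_⟩
    · intro p hp p' hp'
      by_cases hpp : p = p'
      · rw [hpp, pl.self]
        exact agl_le _ _
      · obtain ⟨j, hj⟩ : ∃ j, j = agl (Phi p) (Phi p') := ⟨_, rfl⟩
        have hjm : j ≤ m := by rw [hj]; exact agl_le _ _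
        have hagr : Agr j (Phi p) (Phi p') := by rw [hj]; exact agr_agl _ _
        rw [← hj]
        have h1 := hFB p p' hpp j hjm hagr
        have h2 := hFB p' p (Ne.symm hpp) j hjm (agr_sym hagr)
        have h3 : j ≤ lv (B p) (B p') := by
          rw [hB, hB]
          exact (hN.exa _ _ (hfl p hp) (hfl p' hp') (fun _ => Set.mem_univ _)
            (fun _ => Set.mem_univ _) j hjm).2 (tr_agr (ww_agr hagr))
        have h4 : j ≤ lv (F p) (B p') := le_trans (le_min h1 h3) (pl.ult _ _ _)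
        rw [pl.sym] at h2
        exact le_trans (le_min h4 h2) (pl.ult _ _ _)
    · intro l hl
      have h1 : (fun b => F (ZZ l b)) = x l := by
        funext b
        by_cases h2 : (l.1.2.1 b : ℕ) + 1 < m
        · have h3 : ZZ l b = Sum.inr (l, b) := if_pos h2
          rw [h3, hF2 l b hl]
        · have h3 : ZZ l b = Sum.inl (fun i => Sum.inl (l.1.2.2 (b, i))) := if_neg h2
          have h4 : ∀ i : Fin m, i ≤ l.1.2.1 b := by
            intro i
            have : (i : ℕ) ≤ l.1.2.1 b := by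
              have := i.2
              omega
            exact this
          rw [h3, hF1, hB, ww_inl, hbk l b _ (fun i _ => rfl) (fun i hi => absurd (h4 i) hi)]
          have h5 := (hx l hl).1 b
          have h6 : m ≤ lv (x l b) (bk β c (fun i => f (l.1.2.2 (b, i))) (l.1.2.1 b)) := by
            omega
          exact (hV.lev.eq _ _ (le_antisymm (pl.le _ _) h6)).symm
      rw [h1]
      exact (hx l hl).2
  obtain ⟨φ, hφ1, hφ2⟩ := hM (XX R s D) (Lab R s D) (fun p p' => agl (Phi p) (Phi p'))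
    (fun l b => ZZ l b) y
    { le := fun p p' => agl_le _ _
      self := fun p => (plev_agl (m := m)).self _
      sym := fun p p' => (plev_agl (m := m)).sym _ _
      ult := fun p p' p'' => (plev_agl (m := m)).ult _ _ _ }
    (fun p p' h => Phi_inj hm (agl_eq h)) hy1 hlocal
  refine ⟨fun u => φ (Sum.inl u), ?_, ?_⟩
  · intro w w' _ _ _ _ j hj
    rw [hφ1, le_agl hj]
    refine forall_congr' fun i => forall_congr' fun hi => ?_
    exact Sum.inl_injective.eq_iff
  · intro a i z hz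
    rcases i with i | ⟨h, τ⟩
    · obtain ⟨f, hf1, hf2⟩ := hloc {z ()} (by rw [Finset.card_singleton]; omega)
      have h1 := (hf2 a).2 (Sum.inl i) z (fun q => ⟨hz q, by
        rw [Finset.mem_singleton]⟩)
      rw [← h1]
      have h2 := hf1 (z ()) (by rw [Finset.mem_singleton])
      show s (z ()) = i ↔ st (f (z ())) = i
      rw [h2]
    · obtain ⟨U, hU, hzU⟩ := hent z
      obtain ⟨f, hf1, hf2⟩ := hloc U hU
      have h1 := fun τ' => (hf2 a).2 (Sum.inr (h, τ')) z (fun q => ⟨hz q, hzU q⟩)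
      by_cases hval : ∀ b i, i ≤ h b → s (z (b, i)) = i
      · obtain ⟨l, hl⟩ : ∃ l : Lab R s D, l = ⟨(a, h, z), hz, hval⟩ := ⟨_, rfl⟩
        have e1 : (NR 𝔹 lv s (dk fun u => φ (Sum.inl u)) (Sum.inr (h, τ)) z) ↔
            ∃ x : Fin R → V, (∀ b, (h b : ℕ) + 1 ≤ lv (x b) (y l b)) ∧ tp 𝔹 x = τ := by
          have e2 := cls hV (fun b => (h b : ℕ) + 1)
            (fun b => dk (fun u => φ (Sum.inl u)) (fun i => z (b, i)) (h b))
            (fun b => φ (ZZ l b)) (y l) τ (fun b => by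
              show (h b : ℕ) + 1 ≤ lv (φ (ZZ l b)) (φ (Sum.inl (cp (fun i => z (b, i)) (h b))))
              rw [hφ1, le_agl (h b).2]
              intro i hi
              have hi' : i ≤ l.1.2.1 b := by
                rw [hl]
                exact Nat.lt_succ_iff.1 hi
              rw [Phi_ZZ_le l b i hi']
              simp only [Phi, cp]
              rw [hl] at hi' ⊢
              rw [if_pos hi']) (hφ2 l)
          exact ⟨fun hh => e2.1 hh.2, fun hh => ⟨hval, e2.2 hh⟩⟩
        have hSy : S a (Sum.inr (h, tp 𝔹 (y l))) z := by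
          have := hy2 l
          rw [hl] at this ⊢
          exact this
        obtain ⟨-, x0, hx0, hx0'⟩ := (h1 (tp 𝔹 (y l))).2 hSy
        have e3 : (NR 𝔹 lv st (bk β c) (Sum.inr (h, τ)) (fun q => f (z q))) ↔
            ∃ x : Fin R → V, (∀ b, (h b : ℕ) + 1 ≤ lv (x b) (y l b)) ∧ tp 𝔹 x = τ := by
          have e2 := cls hV (fun b => (h b : ℕ) + 1)
            (fun b => bk β c (fun i => f (z (b, i))) (h b)) x0 (y l) τ hx0 hx0'
          refine ⟨fun hh => e2.1 hh.2, fun hh => ⟨fun b i hi => ?_, e2.2 hh⟩⟩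
          exact (hf1 _ (hzU _)).trans (hval b i hi)
        rw [e1, ← h1 τ, e3]
      · constructor
        · intro hh
          exact absurd hh.1 hval
        · intro hh
          have h2 := ((h1 τ).2 hh).1
          exact absurd (fun b i hi => (hf1 _ (hzU _)).symm.trans (h2 b i hi)) hval

end Pool.Agent.H7.CN
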